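import Pool.Agent.Q27.VS.Stm2
import Pool.Agent.Q27.VS.Final

/-!
# Project VS2 (helper27), job SIMPLE
-/

set_option autoImplicit false

open Set Topology Filter

namespace Pool.Agent.H3.VS

open Pool.Agent.Q27.VS

section

variable {X : Type} [TopologicalSpace X]

theorem sup_commute {g h : X ≃ₜ X} {A B : Set X} (hg : Sup g A) (hh : Sup h B)
    (hAB : Disjoint A B) : g * h = h * g := by
  ext z
  rw [Homeomorph.mul_apply, Homeomorph.mul_apply]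
  by_cases hA : z ∈ A
  · rw [hh z (Set.disjoint_left.1 hAB hA), hh _ (Set.disjoint_left.1 hAB (hg.mem hA))]
  by_cases hB : z ∈ B
  · rw [hg z hA, hg _ (Set.disjoint_right.1 hAB (hh.mem hB))]
  · rw [hg z hA, hh z hB, hg z hA]

theorem alt_sup {G : Subgroup (X ≃ₜ X)} {D : Set X} {a : X ≃ₜ X} (ha : a ∈ Alt G D) :
    Sup a D := by
  unfold Alt at ha
  induction ha using Subgroup.closure_induction with
  | mem t ht => exact ht.2.1
  | one => exact Sup.one D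
  | mul a b _ _ ha hb => exact ha.mul hb
  | inv a _ ha => exact ha.inv

theorem alt_mono {G : Subgroup (X ≃ₜ X)} {D U : Set X} (h : D ⊆ U) : Alt G D ≤ Alt G U :=
  Subgroup.closure_mono fun _ ht => ⟨ht.1, ht.2.1.mono h, ht.2.2⟩

/-- commutators of elements supported in a small set -/
theorem comm_mem {G : Subgroup (X ≃ₜ X)} {U D : Set X} {N : Subgroup (X ≃ₜ X)}
    (hN : ∀ a ∈ Alt G U, ∀ x ∈ N, a * x * a⁻¹ ∈ N) {x : X ≃ₜ X} (hx : x ∈ N) (hDU : D ⊆ U)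
    (hD : Disjoint D (x '' D)) {a b : X ≃ₜ X} (ha : a ∈ Alt G D) (hb : b ∈ Alt G D) :
    b * a * b⁻¹ * a⁻¹ ∈ N := by
  have hc : a * x * a⁻¹ * x⁻¹ ∈ N := N.mul_mem (hN a (alt_mono hDU ha) x hx) (N.inv_mem hx)
  have h1 : b * (a * x * a⁻¹ * x⁻¹) * b⁻¹ * (a * x * a⁻¹ * x⁻¹)⁻¹ ∈ N :=
    N.mul_mem (hN b (alt_mono hDU hb) _ hc) (N.inv_mem hc)
  have h2 : Sup (x * a⁻¹ * x⁻¹) (x '' D) := (alt_sup ha).inv.conj x
  have h3 : b * (x * a⁻¹ * x⁻¹) = (x * a⁻¹ * x⁻¹) * b := sup_commute (alt_sup hb) h2 hD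
  have h4 : b * (a * x * a⁻¹ * x⁻¹) * b⁻¹ * (a * x * a⁻¹ * x⁻¹)⁻¹ = b * a * b⁻¹ * a⁻¹ := by
    have h5 : (x * a⁻¹ * x⁻¹) * b⁻¹ = b⁻¹ * (x * a⁻¹ * x⁻¹) := by
      have h6 : Commute b (x * a⁻¹ * x⁻¹) := h3
      exact h6.inv_left.eq.symm
    calc b * (a * x * a⁻¹ * x⁻¹) * b⁻¹ * (a * x * a⁻¹ * x⁻¹)⁻¹
        = b * a * ((x * a⁻¹ * x⁻¹) * b⁻¹) * (x * a⁻¹ * x⁻¹)⁻¹ * a⁻¹ := by group
      _ = b * a * b⁻¹ * a⁻¹ := by rw [h5]; group
  rwa [h4] at h1

end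

variable {X : Type} [TopologicalSpace X] [CSp X]

theorem alt_small (hC : S_cycle X) (hK : S_comm X) {G : Subgroup (X ≃ₜ X)} (hV : Vig G)
    (hS : Simp G) {U D D' : Set X} {N : Subgroup (X ≃ₜ X)}
    (hN : ∀ a ∈ Alt G U, ∀ x ∈ N, a * x * a⁻¹ ∈ N) {x : X ≃ₜ X} (hx : x ∈ N) (hDU : D ⊆ U)
    (hD : Disjoint D (x '' D)) (hDc : IsClopen D) (hD'c : IsClopen D') (hD'D : D' ⊆ D)
    (hne : (D \ D').Nonempty) : Alt G D' ≤ N := by
  refine (Subgroup.closure_le N).2 ?_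
  rintro t ⟨htG, htS, A, hA, hT⟩
  have hAD' : A ⊆ D' := by
    intro a ha
    by_contra h
    exact hT.d1 a ha (by rw [htS a h]; exact ha)
  rcases A.eq_empty_or_nonempty with hA0 | hAn
  · have : t = 1 := by
      ext z
      rw [hT.out z (by rw [hA0]; exact notMem_empty z) (fun a ha => absurd ha (by
        rw [hA0]; exact notMem_empty a)) (fun a ha => absurd ha (by
        rw [hA0]; exact notMem_empty a))]
      rfl
    rw [this]
    exact N.one_mem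
  obtain ⟨Y, hY1, hY2, hY3, hY4, -⟩ := pieces 2 (hDc.2.sdiff hD'c.1) hne
  have hAu : A ≠ univ := by
    intro h
    obtain ⟨z, hz⟩ := hne
    exact hz.2 (hAD' (by rw [h]; trivial))
  have hYu : ∀ i, Y i ≠ univ := by
    intro i h
    obtain ⟨a, ha⟩ := hAn
    have h1 : a ∈ Y i := by
      rw [h]
      trivial
    exact (hY3 i h1).2 (hAD' ha)
  have hg : ∀ i, ∃ g ∈ G, g '' A ⊆ Y i := by
    intro i
    obtain ⟨g, hg, h1, -⟩ := hV univ A (Y i) isClopen_univ hA (hY1 i) (subset_univ _)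
      (subset_univ _) hAn (hY2 i) hAu (hYu i)
    exact ⟨g, hg, h1⟩
  obtain ⟨g₁, hg₁, hi₁⟩ := hg 0
  obtain ⟨g₂, hg₂, hi₂⟩ := hg 1
  have htD' : ∀ a ∈ A, t a ∈ D' := fun a ha => htS.mem (hAD' ha)
  have httD' : ∀ a ∈ A, t (t a) ∈ D' := fun a ha => htS.mem (htD' a ha)
  have d1 : ∀ {g : X ≃ₜ X} {i : Fin 2}, g '' A ⊆ Y i → ∀ z ∈ D', z ∉ g '' A :=
    fun h z hz hz' => (hY3 _ (h hz')).2 hz
  obtain ⟨c, hc, hct, hc1, hc2, hc3⟩ := Pool.Agent.Q144.VS.uni_three hC hV hS htG hg₁ hA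
    (by
      rw [Set.disjoint_left]
      rintro _ hz ⟨a, ha, rfl⟩
      exact hT.d1 a ha hz)
    (by
      rw [Set.disjoint_left]
      exact fun z hz => d1 hi₁ z (hAD' hz))
    (by
      rw [Set.disjoint_left]
      rintro _ ⟨a, ha, rfl⟩
      exact d1 hi₁ _ (htD' a ha))
  obtain ⟨c', hc', hct', hc1', hc2', hc3'⟩ := Pool.Agent.Q144.VS.uni_three hC hV hS
    (G.mul_mem htG htG) hg₂ hA
    (by
      rw [Set.disjoint_left]
      rintro _ hz ⟨a, ha, rfl⟩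
      exact hT.d2 a ha hz)
    (by
      rw [Set.disjoint_left]
      exact fun z hz => d1 hi₂ z (hAD' hz))
    (by
      rw [Set.disjoint_left]
      rintro _ ⟨a, ha, rfl⟩
      exact d1 hi₂ _ (httD' a ha))
  have hcD : Sup c D := by
    intro z hz
    refine hc3 z (fun h => hz (hD'D (hAD' h))) ?_ ?_
    · rintro ⟨a, ha, rfl⟩
      exact hz (hD'D (htD' a ha))
    · exact fun h => hz (hY3 0 (hi₁ h)).1
  have hcD' : Sup c' D := by
    intro z hz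
    refine hc3' z (fun h => hz (hD'D (hAD' h))) ?_ ?_
    · rintro ⟨a, ha, rfl⟩
      exact hz (hD'D (httD' a ha))
    · exact fun h => hz (hY3 1 (hi₂ h)).1
  have hcA : c ∈ Alt G D := Subgroup.subset_closure ⟨hc, hcD, A, hA, hct⟩
  have hcA' : c' ∈ Alt G D := Subgroup.subset_closure ⟨hc', hcD', A, hA, hct'⟩
  have hm : ∀ z, c z ≠ z → c' z ≠ z → z ∈ A := by
    intro z h1 h2
    by_contra hz
    have h3 : z ∈ t '' A ∨ z ∈ g₁ '' A := by
      by_contra h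
      push Not at h
      exact h1 (hc3 z hz h.1 h.2)
    have h4 : z ∈ (t * t) '' A ∨ z ∈ g₂ '' A := by
      by_contra h
      push Not at h
      exact h2 (hc3' z hz h.1 h.2)
    rcases h3 with ⟨a, ha, rfl⟩ | h3
    · rcases h4 with ⟨b, hb, h4⟩ | h4
      · have h5 : t b = a := t.injective h4
        exact hT.d1 b hb (by rw [h5]; exact ha)
      · exact d1 hi₂ _ (htD' a ha) h4
    · rcases h4 with ⟨b, hb, rfl⟩ | h4
      · exact d1 hi₁ _ (httD' b hb) h3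
      · exact Set.disjoint_left.1 (hY4 0 1 (by decide)) (hi₁ h3) (hi₂ h4)
  obtain ⟨k1, k2, k3, k4⟩ := hK c c' A hm (fun z hz => hct.d1 z hz) (fun z hz => hct'.d1 z hz)
  have e1 : ∀ a ∈ A, (c * c' * c⁻¹ * c'⁻¹) a = t a := fun a ha => by rw [k1 a ha, hc1 a ha]
  have e2 : ∀ a ∈ A, (c * c' * c⁻¹ * c'⁻¹) (t a) = t (t a) := fun a ha => by
    have := k2 a ha
    rw [hc1 a ha, hc1' a ha] at this
    exact this
  have e3 : ∀ a ∈ A, (c * c' * c⁻¹ * c'⁻¹) (t (t a)) = a := fun a ha => by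
    have := k3 a ha
    rw [hc1' a ha] at this
    exact this
  have hkey : c * c' * c⁻¹ * c'⁻¹ = t := by
    ext z
    by_cases h0 : z ∈ A
    · exact e1 z h0
    by_cases h1 : ∃ a ∈ A, z = t a
    · obtain ⟨a, ha, rfl⟩ := h1
      exact e2 a ha
    by_cases h2 : ∃ a ∈ A, z = t (t a)
    · obtain ⟨a, ha, rfl⟩ := h2
      rw [e3 a ha, hT.cyc a ha]
    · push Not at h1 h2
      rw [hT.out z h0 h1 h2]
      refine k4 z h0 (fun a ha => ?_) (fun a ha => ?_)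
      · rw [hc1 a ha]
        exact h1 a ha
      · rw [hc1' a ha]
        exact h2 a ha
  rw [← hkey]
  exact comm_mem hN hx hDU hD hcA' hcA

/-- JOB SIMPLE -/
theorem simple (X : Type) [TopologicalSpace X] [CSp X] : S_simple X := by
  intro G hV hS U hU N hN ⟨x, hxN, hx1, hxU⟩
  have hC : S_cycle X := s_cycle X
  obtain ⟨y, hy⟩ : ∃ y, x y ≠ y := by
    by_contra h
    push Not at h
    exact hx1 (by ext z; exact h z)
  have hyU : y ∈ U := by
    by_contra h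
    exact hy (hxU y h)
  obtain ⟨V, V', hVo, hVo', hV1, hV2, hVV⟩ := t2_separation hy
  obtain ⟨D, hDc, hyD, hDs⟩ := clopen_nhd (x := y) (U := U ∩ V' ∩ x ⁻¹' V)
    (inter_mem (inter_mem (hU.2.mem_nhds hyU) (hVo'.mem_nhds hV2))
      ((hVo.preimage x.continuous).mem_nhds hV1))
  have hDU : D ⊆ U := fun z hz => (hDs hz).1.1
  have hD : Disjoint D (x '' D) := by
    rw [Set.disjoint_left]
    rintro _ hz ⟨a, ha, rfl⟩
    exact Set.disjoint_left.1 hVV (hDs ha).2 (hDs hz).1.2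
  obtain ⟨D', hD'c, hD'n, hD'D, hne⟩ := clopen_proper hDc.2 ⟨y, hyD⟩
  have hD'U : D' ⊆ U := hD'D.trans hDU
  have hsmall : Alt G D' ≤ N := alt_small hC (Pool.Agent.Q299.VS.comm X) hV hS hN hxN hDU hD hDc
    hD'c hD'D hne
  have hun : ∀ V W : Set X, IsClopen V → IsClopen W → (V ∩ W).Nonempty → Alt G V ≤ N →
      Alt G W ≤ N → Alt G (V ∪ W) ≤ N := s_union X G hV hS N
  have hmain : ∃ V, IsClopen V ∧ U ⊆ V ∧ D' ⊆ V ∧ V ⊆ U ∧ Alt G V ≤ N := by
    refine hU.1.isCompact.induction_on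
      (p := fun S => ∃ V, IsClopen V ∧ S ⊆ V ∧ D' ⊆ V ∧ V ⊆ U ∧ Alt G V ≤ N) ?_ ?_ ?_ ?_
    · exact ⟨D', hD'c, empty_subset _, subset_rfl, hD'U, hsmall⟩
    · rintro s t hst ⟨V, h1, h2, h3⟩
      exact ⟨V, h1, hst.trans h2, h3⟩
    · rintro s t ⟨V, h1, h2, h3, h4, h5⟩ ⟨W, k1, k2, k3, k4, k5⟩
      obtain ⟨z, hz⟩ := hD'n
      exact ⟨V ∪ W, h1.union k1, union_subset_union h2 k2, h3.trans subset_union_left,
        union_subset h4 k4, hun V W h1 k1 ⟨z, h3 hz, k3 hz⟩ h5 k5⟩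
    · intro p hp
      by_cases hpD : p ∈ D'
      · exact ⟨D', mem_nhdsWithin_of_mem_nhds (hD'c.2.mem_nhds hpD), D', hD'c, subset_rfl,
          subset_rfl, hD'U, hsmall⟩
      obtain ⟨A, hA, hpA, hAs⟩ := clopen_nhd (x := p) (U := U \ D')
        ((hU.2.sdiff hD'c.1).mem_nhds ⟨hp, hpD⟩)
      have hAu : A ≠ univ := by
        intro h
        obtain ⟨z, hz⟩ := hD'n
        exact (hAs (by rw [h]; trivial : z ∈ A)).2 hz
      obtain ⟨Y, hY1, hY2, hY3, hY4, -⟩ := pieces 2 hD'c.2 hD'n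
      have hYu : ∀ i, Y i ≠ univ := by
        intro i h
        exact hpD (hY3 i (by rw [h]; trivial))
      have hg : ∀ i, ∃ g ∈ G, g '' A ⊆ Y i := by
        intro i
        obtain ⟨g, hg, h1, -⟩ := hV univ A (Y i) isClopen_univ hA (hY1 i) (subset_univ _)
          (subset_univ _) ⟨p, hpA⟩ (hY2 i) hAu (hYu i)
        exact ⟨g, hg, h1⟩
      obtain ⟨g₁, hg₁, hi₁⟩ := hg 0
      obtain ⟨g₂, hg₂, hi₂⟩ := hg 1
      obtain ⟨ρ, hρ, hρt, hρ1, hρ2, hρ3⟩ := Pool.Agent.Q144.VS.uni_three hC hV hS hg₁ hg₂ hA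
        (by
          rw [Set.disjoint_left]
          exact fun z hz h => (hAs hz).2 (hY3 0 (hi₁ h)))
        (by
          rw [Set.disjoint_left]
          exact fun z hz h => (hAs hz).2 (hY3 1 (hi₂ h)))
        ((hY4 0 1 (by decide)).mono hi₁ hi₂)
      have hρ4 : ∀ a ∈ A, ρ (g₂ a) = a := by
        intro a ha
        have := hρt.cyc a ha
        rwa [hρ1 a ha, hρ2 a ha] at this
      have hρU : Sup ρ U := by
        intro z hz
        exact hρ3 z (fun h => hz (hAs h).1) (fun h => hz (hD'U (hY3 0 (hi₁ h))))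
          (fun h => hz (hD'U (hY3 1 (hi₂ h))))
      have hρA : ρ ∈ Alt G U := Subgroup.subset_closure ⟨hρ, hρU, A, hA, hρt⟩
      have hAV : A ⊆ ρ '' D' := fun a ha => ⟨g₂ a, hY3 1 (hi₂ ⟨a, ha, rfl⟩), hρ4 a ha⟩
      have hcl : IsClopen (ρ '' D') := image_clopen ρ hD'c
      have hsub : ρ '' D' ⊆ U := by
        rintro _ ⟨a, ha, rfl⟩
        exact hρU.mem (hD'U ha)
      have hle : Alt G (ρ '' D') ≤ N := by
        intro s hs
        have h1 := (s_alt X).1 G (ρ '' D') ρ⁻¹ (G.inv_mem hρ) s hs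
        have h2 : (ρ⁻¹ : X ≃ₜ X) '' (ρ '' D') = D' := by
          rw [← image_comp]
          have h7 : (⇑(ρ⁻¹) ∘ ⇑ρ) = id := by
            funext z
            exact ρ.symm_apply_apply z
          rw [h7, image_id]
        rw [h2] at h1
        have h3 := hN ρ hρA _ (hsmall h1)
        have h4 : ρ * (ρ⁻¹ * s * ρ⁻¹⁻¹) * ρ⁻¹ = s := by group
        rwa [h4] at h3
      refine ⟨A, mem_nhdsWithin_of_mem_nhds (hA.2.mem_nhds hpA), D' ∪ ρ '' D', hD'c.union hcl,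
        hAV.trans subset_union_right, subset_union_left, union_subset hD'U hsub,
        hun _ _ hD'c hcl ⟨g₂ p, hY3 1 (hi₂ ⟨p, hpA, rfl⟩), g₁ p, hY3 0 (hi₁ ⟨p, hpA, rfl⟩),
          hρ2 p hpA⟩ hsmall hle⟩
  obtain ⟨V, -, h2, -, h4, h5⟩ := hmain
  have : V = U := h4.antisymm h2
  rwa [this] at h5

end Pool.Agent.H3.VS
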